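import Mathlib

/-!
# The second alternative of the SHGH conjecture, given by a line through two points
-/

namespace Pool.MP_70e04f_ag.Dich

open MvPolynomial

/-- The alternative of the SHGH conjecture for degree `d` and multiplicities `m`. -/
def SHGH {n : ℕ} (d : ℕ) (m : Fin n → ℕ) : Prop :=
  ∃ g : MvPolynomial (Fin n × Fin 2) ℂ, g ≠ 0 ∧
    ∀ p : Fin n → Fin 2 → ℂ,
      MvPolynomial.eval (fun q : Fin n × Fin 2 => p q.1 q.2) g ≠ 0 →
        ((2 : ℤ) * ((Module.finrank ℂ
            ↥(MvPolynomial.restrictTotalDegree (Fin 2) ℂ d ⊓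
              ⨅ i : Fin n, Submodule.restrictScalars ℂ
                ((RingHom.ker (MvPolynomial.eval (p i)) :
                    Ideal (MvPolynomial (Fin 2) ℂ)) ^ m i)) : ℕ) : ℤ)
          = max 0 (((d : ℤ) + 1) * ((d : ℤ) + 2) - ∑ i, (m i : ℤ) * ((m i : ℤ) + 1)))
        ∨ ∃ f : MvPolynomial (Fin 2) ℂ, ∃ e : ℕ, ∃ a : Fin n → ℕ,
            Irreducible f ∧ f.totalDegree = e ∧
            (∀ i, f ∈ (RingHom.ker (MvPolynomial.eval (p i)) :
                      Ideal (MvPolynomial (Fin 2) ℂ)) ^ a i ∧
                  f ∉ (RingHom.ker (MvPolynomial.eval (p i)) :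
                      Ideal (MvPolynomial (Fin 2) ℂ)) ^ (a i + 1)) ∧
            (e : ℤ) ^ 2 - ∑ i, (a i : ℤ) ^ 2 = -1 ∧
            3 * (e : ℤ) - ∑ i, (a i : ℤ) = 1 ∧
            (d : ℤ) * (e : ℤ) - ∑ i, (a i : ℤ) * (m i : ℤ) ≤ -2

/-- Elements of the square of the ideal of a point have derivatives which vanish at the point. -/
lemma eval_pderiv_of_mem_sq {q : Fin 2 → ℂ} {f : MvPolynomial (Fin 2) ℂ} (k : Fin 2)
    (hf : f ∈ (RingHom.ker (MvPolynomial.eval q) : Ideal (MvPolynomial (Fin 2) ℂ)) ^ 2) :
    MvPolynomial.eval q (pderiv k f) = 0 := by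
  rw [pow_two] at hf
  refine Submodule.mul_induction_on hf ?_ ?_
  · intro a ha b hb
    rw [RingHom.mem_ker] at ha hb
    rw [Derivation.leibniz, smul_eq_mul, smul_eq_mul, map_add, map_mul, map_mul, ha, hb]
    ring
  · intro a b ha hb
    rw [map_add, map_add, ha, hb, add_zero]

/-- The line through two points. -/
noncomputable def ln (u v : Fin 2 → ℂ) : MvPolynomial (Fin 2) ℂ :=
  C (v 0 - u 0) * X 1 + C (u 1 - v 1) * X 0 + C (u 0 * v 1 - u 1 * v 0)

lemma eval_ln (u v w : Fin 2 → ℂ) : MvPolynomial.eval w (ln u v) =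
    (v 0 - u 0) * w 1 + (u 1 - v 1) * w 0 + (u 0 * v 1 - u 1 * v 0) := by
  simp [ln]

lemma pderiv_ln (u v : Fin 2 → ℂ) : pderiv 1 (ln u v) = C (v 0 - u 0) := by
  simp [ln]

lemma coeff_ln (u v : Fin 2 → ℂ) : coeff (Finsupp.single 1 1) (ln u v) = v 0 - u 0 := by
  have h1 : (Finsupp.single 0 1 : Fin 2 →₀ ℕ) ≠ Finsupp.single 1 1 := by
    rw [Ne, Finsupp.single_left_inj one_ne_zero]
    decide
  have h2 : (0 : Fin 2 →₀ ℕ) ≠ Finsupp.single 1 1 := by
    intro h
    have := congrArg (fun s : Fin 2 →₀ ℕ => s 1) h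
    simp at this
  unfold ln
  rw [coeff_add, coeff_add, coeff_C_mul, coeff_C_mul, coeff_C, if_neg h2]
  simp [coeff_X, h1]

lemma totalDegree_ln {u v : Fin 2 → ℂ} (h : v 0 - u 0 ≠ 0) : (ln u v).totalDegree = 1 := by
  apply le_antisymm
  · unfold ln
    refine (totalDegree_add _ _).trans (max_le ((totalDegree_add _ _).trans (max_le ?_ ?_)) ?_)
    · exact (totalDegree_mul _ _).trans (by rw [totalDegree_C, totalDegree_X])
    · exact (totalDegree_mul _ _).trans (by rw [totalDegree_C, totalDegree_X])
    · rw [totalDegree_C]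
      exact Nat.zero_le _
  · have h1 : Finsupp.single 1 1 ∈ (ln u v).support := by
      rw [mem_support_iff, coeff_ln]
      exact h
    have h2 := le_totalDegree h1
    simpa using h2

lemma irreducible_ln {u v : Fin 2 → ℂ} (h : v 0 - u 0 ≠ 0) : Irreducible (ln u v) := by
  apply irreducible_of_totalDegree_eq_one (totalDegree_ln h)
  intro x hx
  have h1 := hx (Finsupp.single 1 1)
  rw [coeff_ln] at h1
  rw [isUnit_iff_ne_zero]
  rintro rfl
  exact h (zero_dvd_iff.1 h1)

/-- The determinant which vanishes when three points are on a line. -/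
noncomputable def dt {n : ℕ} (i j k : Fin n) : MvPolynomial (Fin n × Fin 2) ℂ :=
  (X (j, 0) - X (i, 0)) * X (k, 1) + (X (i, 1) - X (j, 1)) * X (k, 0) +
    (X (i, 0) * X (j, 1) - X (i, 1) * X (j, 0))

lemma eval_dt {n : ℕ} (i j k : Fin n) (p : Fin n → Fin 2 → ℂ) :
    MvPolynomial.eval (fun q : Fin n × Fin 2 => p q.1 q.2) (dt i j k) =
      MvPolynomial.eval (p k) (ln (p i) (p j)) := by
  rw [eval_ln]
  simp [dt]

/-- A line through two points which meets the system in at most `-2`. -/
theorem line_alt {n D : ℕ} (mult : Fin n → ℕ) (i j : Fin n) (hij : i ≠ j)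
    (h : D + 2 ≤ mult i + mult j) : SHGH D mult := by
  classical
  refine ⟨(X (j, 0) - X (i, 0)) *
    ∏ k ∈ Finset.univ.filter (fun k => k ≠ i ∧ k ≠ j), dt i j k, ?_, ?_⟩
  · -- evaluate at a suitable configuration
    intro h0
    have h1 := congrArg (MvPolynomial.eval (fun q : Fin n × Fin 2 =>
      (if q.2 = 0 then (if q.1 = j then 1 else 0) else (if q.1 = i ∨ q.1 = j then 0 else 1) : ℂ))) h0
    rw [map_mul, map_prod, map_zero, mul_eq_zero, Finset.prod_eq_zero_iff] at h1
    rcases h1 with h1 | ⟨k, hk, h1⟩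
    · simp [hij] at h1
    · rw [Finset.mem_filter] at hk
      obtain ⟨_, hki, hkj⟩ := hk
      simp [dt, hij, hki, hkj] at h1
  · intro p hp
    right
    rw [map_mul, map_prod] at hp
    have hp1 := left_ne_zero_of_mul hp
    have hp2 := right_ne_zero_of_mul hp
    rw [Finset.prod_ne_zero_iff] at hp2
    have hd : p j 0 - p i 0 ≠ 0 := by simpa using hp1
    refine ⟨ln (p i) (p j), 1, fun k => if k = i ∨ k = j then 1 else 0, irreducible_ln hd,
      totalDegree_ln hd, ?_, ?_, ?_, ?_⟩
    · intro k
      by_cases hk : k = i ∨ k = j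
      · have hv : (fun k => if k = i ∨ k = j then 1 else 0 : Fin n → ℕ) k = 1 := if_pos hk
        rw [hv]
        constructor
        · rw [pow_one, RingHom.mem_ker, eval_ln]
          rcases hk with rfl | rfl <;> ring
        · intro hm
          have h1 := eval_pderiv_of_mem_sq 1 hm
          rw [pderiv_ln, eval_C] at h1
          exact hd h1
      · have hv : (fun k => if k = i ∨ k = j then 1 else 0 : Fin n → ℕ) k = 0 := if_neg hk
        rw [hv]
        push Not at hk
        constructor
        · simp
        · rw [zero_add, pow_one, RingHom.mem_ker, ← eval_dt]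
          exact hp2 k (Finset.mem_filter.2 ⟨Finset.mem_univ k, hk⟩)
    · have e1 : ∑ k, (((if k = i ∨ k = j then 1 else 0 : ℕ)) : ℤ) ^ 2 = 2 := by
        have e2 : ∀ k, (((if k = i ∨ k = j then 1 else 0 : ℕ)) : ℤ) ^ 2 =
            (if k = i then 1 else 0) + (if k = j then 1 else 0) := by
          intro k
          by_cases hk : k = i
          · subst hk
            simp [hij]
          · by_cases hk' : k = j
            · subst hk'
              simp [hk]
            · simp [hk, hk']
        rw [Finset.sum_congr rfl fun k _ => e2 k, Finset.sum_add_distrib]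
        simp
      rw [e1]
      norm_num
    · have e1 : ∑ k, (((if k = i ∨ k = j then 1 else 0 : ℕ)) : ℤ) = 2 := by
        have e2 : ∀ k, (((if k = i ∨ k = j then 1 else 0 : ℕ)) : ℤ) =
            (if k = i then 1 else 0) + (if k = j then 1 else 0) := by
          intro k
          by_cases hk : k = i
          · subst hk
            simp [hij]
          · by_cases hk' : k = j
            · subst hk'
              simp [hk]
            · simp [hk, hk']
        rw [Finset.sum_congr rfl fun k _ => e2 k, Finset.sum_add_distrib]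
        simp
      rw [e1]
      norm_num
    · have e1 : ∑ k, (((if k = i ∨ k = j then 1 else 0 : ℕ)) : ℤ) * (mult k : ℤ) =
          mult i + mult j := by
        have e2 : ∀ k, (((if k = i ∨ k = j then 1 else 0 : ℕ)) : ℤ) * (mult k : ℤ) =
            (if k = i then (mult k : ℤ) else 0) + (if k = j then (mult k : ℤ) else 0) := by
          intro k
          by_cases hk : k = i
          · subst hk
            simp [hij]
          · by_cases hk' : k = j
            · subst hk'
              simp [hk]
            · simp [hk, hk']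
        rw [Finset.sum_congr rfl fun k _ => e2 k, Finset.sum_add_distrib]
        simp
      rw [e1]
      push_cast
      omega

end Pool.MP_70e04f_ag.Dich
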