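import Pool.Agent.Lib_MP_70e04f_std.Std
import Pool.Agent.Lib_MP_70e04f_dich.Line

/-!
# Three arbitrary multiplicities
-/

namespace Pool.MP_70e04f_ag.Dich

open Pool.MP_70e04f_ag.Hex Pool.MP_70e04f_ag.Std3

/-- Three arbitrary multiplicities, in decreasing order. -/
lemma three_sorted (n m d : ℕ) (mm : Fin n → ℕ) (α β γ : Fin n) (hαβ : α ≠ β)
    (hαγ : α ≠ γ) (hβγ : β ≠ γ) (h12 : mm β ≤ mm α) (h23 : mm γ ≤ mm β)
    (hmm : ∀ i, i ≠ α → i ≠ β → i ≠ γ → mm i ≤ m) (ha : mm α + 2 * m ≤ d)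
    (p12 : mm α + mm β ≤ d + 1) (hd : 14 * m ^ 2 + 15 * m + 3 ≤ d) : GenExp d mm := by
  obtain ⟨v, hv⟩ : ∃ v, v = (7 * m + 2) / 2 := ⟨_, rfl⟩
  have hv1 : 7 * m + 1 ≤ 2 * v := by omega
  have hv2 : 2 * v ≤ 7 * m + 2 := by omega
  have e1 : v * (2 * m + 1) * 2 ≤ 14 * m ^ 2 + 11 * m + 2 := by
    calc v * (2 * m + 1) * 2 = 2 * v * (2 * m + 1) := by ring
      _ ≤ (7 * m + 2) * (2 * m + 1) := Nat.mul_le_mul_right _ hv2
      _ = 14 * m ^ 2 + 11 * m + 2 := by ring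
  have e2 : (1 + v) * (2 * m + 1) = (2 * m + 1) + v * (2 * m + 1) := by ring
  apply gen_std n 1 v m 0 (2 * m) d d mm α β γ hαβ hαγ hβγ le_rfl (by omega)
    (Nat.coprime_one_left v) (by omega) le_rfl
  · intro i a b c
    have := hmm i a b c
    omega
  · rw [Nat.le_zero, Finset.card_eq_zero, Finset.filter_eq_empty_iff]
    rintro i _ ⟨a, b, c, h⟩
    have := hmm i a b c
    omega
  · omega
  · omega
  · omega
  · omega
  · omega
  · omega
  · exact Or.inl rfl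

/-- Three arbitrary multiplicities. -/
theorem gen_three (n m d : ℕ) (mm : Fin n → ℕ) (α β γ : Fin n) (hαβ : α ≠ β)
    (hαγ : α ≠ γ) (hβγ : β ≠ γ)
    (hmm : ∀ i, i ≠ α → i ≠ β → i ≠ γ → mm i ≤ m) (ha : mm α + 2 * m ≤ d)
    (hb : mm β + 2 * m ≤ d) (hc : mm γ + 2 * m ≤ d)
    (p12 : mm α + mm β ≤ d + 1) (p13 : mm α + mm γ ≤ d + 1) (p23 : mm β + mm γ ≤ d + 1)
    (hd : 14 * m ^ 2 + 15 * m + 3 ≤ d) : GenExp d mm := by
  rcases Nat.le_total (mm β) (mm α) with h1 | h1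
  · rcases Nat.le_total (mm γ) (mm β) with h2 | h2
    · exact three_sorted n m d mm α β γ hαβ hαγ hβγ h1 h2 hmm ha p12 hd
    · rcases Nat.le_total (mm γ) (mm α) with h3 | h3
      · exact three_sorted n m d mm α γ β hαγ hαβ hβγ.symm h3 h2
          (fun i a b c => hmm i a c b) ha p13 hd
      · exact three_sorted n m d mm γ α β hαγ.symm hβγ.symm hαβ h3 h1
          (fun i a b c => hmm i b c a) hc (by omega) hd
  · rcases Nat.le_total (mm γ) (mm α) with h2 | h2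
    · exact three_sorted n m d mm β α γ hαβ.symm hβγ hαγ h1 h2
        (fun i a b c => hmm i b a c) hb (by omega) hd
    · rcases Nat.le_total (mm γ) (mm β) with h3 | h3
      · exact three_sorted n m d mm β γ α hβγ hαβ.symm hαγ.symm h3 h2
          (fun i a b c => hmm i c a b) hb p23 hd
      · exact three_sorted n m d mm γ β α hβγ.symm hαγ.symm hαβ.symm h3 h1
          (fun i a b c => hmm i c b a) hc (by omega) hd

/-- Expected dimension implies the alternative. -/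
lemma shgh_of_genExp {n D : ℕ} {mm : Fin n → ℕ} (h : GenExp D mm) : SHGH D mm := by
  obtain ⟨g, hg, h⟩ := h
  exact ⟨g, hg, fun p hp => Or.inl (h p hp)⟩

/-- The SHGH alternative for three arbitrary multiplicities, and the expected dimension when no
two of them have sum greater than `d + 1`. -/
theorem shgh_three (n m d D : ℕ) (mm : Fin n → ℕ) (α β γ : Fin n) (hαβ : α ≠ β)
    (hαγ : α ≠ γ) (hβγ : β ≠ γ)
    (hmm : ∀ i, i ≠ α → i ≠ β → i ≠ γ → mm i ≤ m) (ha : mm α + 2 * m ≤ d)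
    (hb : mm β + 2 * m ≤ d) (hc : mm γ + 2 * m ≤ d) (hd : 14 * m ^ 2 + 15 * m + 3 ≤ d)
    (hD : D = d ∨ D ≤ d ∧ (d + 1) * (d + 2) ≤ ∑ i, mm i * (mm i + 1)) :
    SHGH D mm ∧ (mm α + mm β ≤ d + 1 → mm α + mm γ ≤ d + 1 → mm β + mm γ ≤ d + 1 →
      GenExp D mm) := by
  have key : mm α + mm β ≤ d + 1 → mm α + mm γ ≤ d + 1 → mm β + mm γ ≤ d + 1 →
      GenExp D mm := by
    intro p12 p13 p23
    have h := gen_three n m d mm α β γ hαβ hαγ hβγ hmm ha hb hc p12 p13 p23 hd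
    rcases hD with rfl | ⟨h1, h2⟩
    · exact h
    · exact h.le h1 h2
  have hDd : D ≤ d := by
    rcases hD with h | h
    · exact h.le
    · exact h.1
  refine ⟨?_, key⟩
  by_cases p12 : mm α + mm β ≤ d + 1
  · by_cases p13 : mm α + mm γ ≤ d + 1
    · by_cases p23 : mm β + mm γ ≤ d + 1
      · exact shgh_of_genExp (key p12 p13 p23)
      · exact line_alt mm β γ hβγ (by omega)
    · exact line_alt mm α γ hαγ (by omega)
  · exact line_alt mm α β hαβ (by omega)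

end Pool.MP_70e04f_ag.Dich
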